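import Pool.Agent.H875Z.Ins.Main

/-!
# A model of ZF with INSHC in which BPI and IDFBI fail
-/

open Pool.Agent.Helper672.Plain Pool.Agent.H635Amen Pool.Agent.H875Z.Ins

theorem Pool.Agent.Results.MP_2291ab_lc.AModel.result :
    ∃ (N : Type 1) (_ : LSet.Structure N), ZF N ∧ INSHC N ∧ ¬ BPI N ∧ ¬ IDFBI N :=
  Pool.Agent.Helper672.ZFA.H875.main
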